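import Pool.Agent.N212.KS.Main
import Pool.Agent.N776.KS_LIM
import Pool.Agent.N409.KS_RANK
import Pool.Agent.N657.KS_BIG
import Pool.Agent.N106.KS_TR
import Pool.Agent.N271.KS_INT
import Pool.Agent.N34.KS_INV
import Pool.Agent.N868.KS_GROW
import Pool.Agent.N774.KS_CANS
import Pool.Agent.N704.KS_CAN
import Pool.Agent.N769.KS_SUM
import Pool.Agent.N966.KS_NN
import Pool.Agent.N596.KS_PER
import Pool.Agent.N470.KS_POS
import Pool.Agent.N547.KS_ASY
import Pool.Agent.N91.KS_DEG

/-!
# The Kawaguchi–Silverman conjecture for commutative groups of automorphisms with eigenclasses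

Let `V` be a normal projective variety over the algebraic numbers and let `G` be a commutative
group of automorphisms of `V`. Assume that there are nef classes `ℓ_i` (`i` in a finite set) in
`N¹(V)` which are common eigenvectors, `g^* ℓ_i = χ_i(g) ℓ_i`, whose sum is big, and that for each
`i` some `g` in `G` has `χ_i(g) > 1` and `χ_j(g) ≤ 1` for `j ≠ i`; or that the vectors
`(log χ_i(g))_i` span the hyperplane of sum zero (groups of maximal rank `dim V - 1`: Dinh–Sibony).

**Theorem.** For every point `x` whose `G`-orbit is Zariski dense and every `f` in `G` the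
arithmetic degree of `f` at `x` is the first dynamical degree of `f`, which is
`d = max_i χ_i(f)`; moreover `c dⁿ ≤ h(fⁿ x) ≤ C dⁿ` with `c > 0`.

The orbit of `x` under the single automorphism `f` need not be dense. If it is dense then so is the
`G`-orbit, so this contains the Kawaguchi–Silverman conjecture for all elements of `G`.

**Proof.** (1) As the `ℓ_i` are nef and the sum is big, there is a `G`-invariant closed `Z ≠ V` with
`h ≤ A Σ h_i + B` off `Z` (the smallest closed set with such an inequality). (2) If `g` expands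
`ℓ_i`, `λ = χ_i(g)`, and no other `ℓ_j` then `h(gⁿ y) ≤ K μⁿ h(y)` off `Z` for `λ < μ < λ²`, so the
errors `O(√h)` (due to numerical instead of linear equivalence) are summable and
`ĥ_i(y) = lim h_i(gⁿ y)/λⁿ` exists, `|ĥ_i - h_i| ≤ C √h` and `ĥ_i(k y) = χ_i(k) ĥ_i(y)` for all `k`
in `G`. (3) `h ≤ A' Σ ĥ_i + B'` off `Z` and `ĥ_i ≥ 0`. (4) If `ĥ_i(x) = 0` then `h(gⁿ x)` is
bounded, so `gᵐ x = x` by Northcott, so `gᵐ` fixes the dense orbit of `x` and `gᵐ = 1`, which
contradicts `χ_i(g) > 1`. So all `ĥ_i(x)` are positive, and the growth follows.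
-/

set_option autoImplicit false

open Filter Topology

universe u v w z

namespace Pool.Agent.Results.MP_0e7dfd_ag.CommutingEigenclasses

open Pool.Agent.N212.KS

/-- Let `X` be the (Noetherian) space of closed points of a projective variety over the algebraic
numbers, `N` its space of numerical classes of divisors, with the Weil heights `D`; let `G` be a
commutative group of automorphisms (`P`), and let `E` be a finite, non-empty set of common nef
eigenclasses `E.ℓ i` with characters `E.χ i`, whose sum is big. Assume that the characters are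
separated, or of maximal rank. Then for every point `x` with dense `G`-orbit and every `f` in `G`
there is a number `d`, the largest `E.χ i f`, which is the first dynamical degree of `f` and the
arithmetic degree of `f` at `x`; and the height of `fⁿ x` is between `c dⁿ` and `C dⁿ`. -/
theorem result {X : Type u} {N : Type v} {G : Type w} {ι : Type z} [TopologicalSpace X]
    [TopologicalSpace.NoetherianSpace X] [AddCommGroup N] [Module ℝ N] [CommGroup G]
    [MulAction G X] [Fintype ι] [Nonempty ι]
    (D : HeightData X N) (P : AutData D G) (E : EigenData P ι)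
    (hE : Separated E.χ ∨ MaximalRank E.χ)
    (x : X) (hx : Dense (MulAction.orbit G x)) (f : G) :
    ∃ d : ℝ, IsGreatest (Set.range fun i => E.χ i f) d ∧ 1 ≤ d ∧
      DynDegree P f d ∧ ArithDegree D f x d ∧
      ∃ c C : ℝ, 0 < c ∧ ∀ n : ℕ, c * d ^ n ≤ D.H (f ^ n • x) ∧ D.H (f ^ n • x) ≤ C * d ^ n :=
  main_of_leaves Pool.Agent.N776.KS.t_LIM Pool.Agent.N409.KS.t_RANK Pool.Agent.N657.KS.t_BIG
    Pool.Agent.N106.KS.t_TR Pool.Agent.N271.KS.t_INT Pool.Agent.N34.KS.t_INV
    (Pool.Agent.N704.KS.t_CAN Pool.Agent.N868.KS.t_GROW Pool.Agent.N774.KS.t_CANS)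
    Pool.Agent.N769.KS.t_SUM Pool.Agent.N966.KS.t_NN
    (Pool.Agent.N470.KS.t_POS Pool.Agent.N596.KS.t_PER)
    (Pool.Agent.N547.KS.t_ASY Pool.Agent.N596.KS.t_PER) Pool.Agent.N91.KS.t_DEG
    D P E hE x hx f

end Pool.Agent.Results.MP_0e7dfd_ag.CommutingEigenclasses
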